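import Pool.Agent.Q157.AS.C

/-!
# Domination in affine surface area does not imply the volume inequality

`C₁ = {|x₀| + |x₁| + |x₂| ≤ 1, |x_i| ≤ 18/25}` (a truncated octahedron) and
`C₂ = {|x₀| + |x₁| + |x₂| ≤ 24/25}` (an octahedron) in `ℝ³`.

For a linear map with columns `v₀, v₁, v₂` put `G(s) = |(s₁ v₁ - s₀ v₀) × (s₂ v₂ - s₀ v₀)|`; the
eight facets of the image of `C₂` have area `b² G(s) / 2`, the eight hexagonal facets of the image
of `C₁` have area `(1 - 3 δ²) G(s) / 2`, and its six other facets have the areas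
`2 δ² |v_i × v_j|` (`δ = 7/25`, `b = 24/25`, `b² = 1 - δ²`).  So the claim
`S(A C₁) ≤ S(A C₂)` follows from `4 ∑_{i<j} |v_i × v_j| ≤ ∑_s G(s)`, and this is Hlawka's
inequality for the three vectors `v_i × v_j` (in the version with all sign choices).  On the other
hand the volumes are `(4/3) (1 - 3 δ³) > (4/3) b³`.
-/

set_option autoImplicit false

open MeasureTheory Measure

namespace Pool.Agent.Results.MP_8228af_gt.TruncatedOctahedron

/-- convex bodies of `ℝ^n`: compact convex sets with nonempty interior -/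
def IsConvexBody {n : ℕ} (K : Set (EuclideanSpace ℝ (Fin n))) : Prop :=
  IsCompact K ∧ Convex ℝ K ∧ (interior K).Nonempty

/-- some translate `C - x` of `C` satisfies `C - x = -(C - x)` -/
def CentrallySymmetric {n : ℕ} (C : Set (EuclideanSpace ℝ (Fin n))) : Prop :=
  ∃ x : EuclideanSpace ℝ (Fin n), (fun y => y - x) '' C = (fun y => -(y - x)) '' C

/-- the surface area: the (`n-1`)-dimensional Hausdorff measure, normalised as in `ℝ^(n-1)`, of the
boundary -/
noncomputable def surfaceArea {n : ℕ} (K : Set (EuclideanSpace ℝ (Fin n))) : ENNReal :=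
  (μHE[n - 1] : Measure (EuclideanSpace ℝ (Fin n))) (frontier K)

/-- `C₂` dominates `C₁` in affine surface area: `S(A(C₁)) ≤ S(A(C₂))` for all nonsingular affine
maps `A` -/
def Dominates {n : ℕ} (C₂ C₁ : Set (EuclideanSpace ℝ (Fin n))) : Prop :=
  ∀ A : EuclideanSpace ℝ (Fin n) ≃ᵃ[ℝ] EuclideanSpace ℝ (Fin n),
    surfaceArea (A '' C₁) ≤ surfaceArea (A '' C₂)

/-- the truncated octahedron `{|x₀| + |x₁| + |x₂| ≤ 1, |x_i| ≤ 18/25}` -/
def truncatedOctahedron : Set (EuclideanSpace ℝ (Fin 3)) :=
  {x | |x 0| + |x 1| + |x 2| ≤ 1 ∧ |x 0| ≤ 18 / 25 ∧ |x 1| ≤ 18 / 25 ∧ |x 2| ≤ 18 / 25}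

/-- the octahedron `{|x₀| + |x₁| + |x₂| ≤ 24/25}` -/
def octahedron : Set (EuclideanSpace ℝ (Fin 3)) :=
  {x | |x 0| + |x 1| + |x 2| ≤ 24 / 25}

/-- **Domination in affine surface area does not imply the volume inequality**: in `ℝ³` the
octahedron dominates the truncated octahedron, but it has the smaller volume.  In particular the
implication fails for `n = 3`. -/
theorem result :
    (IsConvexBody truncatedOctahedron ∧ CentrallySymmetric truncatedOctahedron ∧
      IsConvexBody octahedron ∧ CentrallySymmetric octahedron ∧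
      Dominates octahedron truncatedOctahedron ∧
      volume octahedron < volume truncatedOctahedron) ∧
    ¬ ∀ n : ℕ, 3 ≤ n → ∀ C₁ C₂ : Set (EuclideanSpace ℝ (Fin n)),
      IsConvexBody C₁ → CentrallySymmetric C₁ → IsConvexBody C₂ → CentrallySymmetric C₂ →
      Dominates C₂ C₁ → volume C₁ ≤ volume C₂ := by
  have e1 : truncatedOctahedron = Q157.AS.tr (7 / 25) := by
    ext x
    simp only [truncatedOctahedron, Q157.AS.tr, Set.mem_ofPred_eq]
    norm_num
  have e2 : octahedron = Q157.AS.oct (24 / 25) := rfl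
  have key : IsConvexBody truncatedOctahedron ∧ CentrallySymmetric truncatedOctahedron ∧
      IsConvexBody octahedron ∧ CentrallySymmetric octahedron ∧
      Dominates octahedron truncatedOctahedron ∧
      volume octahedron < volume truncatedOctahedron := by
    refine ⟨?_, ⟨0, ?_⟩, ?_, ⟨0, ?_⟩, ?_, ?_⟩
    · rw [e1]
      exact ⟨Q157.AS.tr_compact _, Q157.AS.tr_convex _, Q157.AS.tr_int (by norm_num)⟩
    · ext x
      simp [truncatedOctahedron]
    · rw [e2]
      exact ⟨Q157.AS.oct_compact _, Q157.AS.oct_convex _, Q157.AS.oct_int (by norm_num)⟩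
    · ext x
      simp [octahedron]
    · intro A
      rw [e1, e2]
      have h1 := Q157.AS.surf_tr A (δ := 7 / 25) (by norm_num) (by norm_num)
      have h2 := Q157.AS.surf_oct A (r := 24 / 25) (by norm_num)
      rw [show (1 : ℝ) - (7 / 25) ^ 2 = (24 / 25) ^ 2 by norm_num] at h1
      exact h1.trans h2
    · rw [e1, e2]
      exact Q157.AS.vol_cmp (by norm_num) (by norm_num) (by norm_num) (by norm_num)
  refine ⟨key, fun h => ?_⟩
  obtain ⟨k1, k2, k3, k4, k5, k6⟩ := key
  exact absurd (h 3 le_rfl _ _ k1 k2 k3 k4 k5) (not_le.2 k6)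

end Pool.Agent.Results.MP_8228af_gt.TruncatedOctahedron
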